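import Pool.Agent.Lib.MP_04668c_co.E.Base

/-!
# Module YSPLIT (helper58): a collapsed set of more than half of the vertices gives a connected
set with large excess
-/

set_option autoImplicit false
set_option linter.unusedSectionVars false

namespace Pool.Agent.Lib.MP_04668c_co.E.H58

open Finset Classical Module
open Pool.Agent.Lib.MP_04668c_co
open Pool.Agent.Lib.MP_04668c_co.E

variable {V X : Type} [Fintype V] [Fintype X]

/-- `W` is closed relative to `Z` -/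
def ClosedIn (B : X → Finset V) (Z W : Finset V) : Prop :=
  ∀ x, (∃ v ∈ B x, v ∈ W) → ∀ v ∈ B x, v ∈ Z → v ∈ W

/-- restriction of a placement -/
noncomputable def rs (W : Finset V) : (V → ℝ × ℝ) →ₗ[ℝ] (V → ℝ × ℝ) where
  toFun p v := if v ∈ W then p v else 0
  map_add' p p' := by
    funext v
    simp only [Pi.add_apply]
    split_ifs <;> simp
  map_smul' t p := by
    funext v
    simp only [Pi.smul_apply, RingHom.id_apply]
    split_ifs <;> simp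

theorem rs_apply (W : Finset V) (p : V → ℝ × ℝ) (v : V) :
    rs W p v = if v ∈ W then p v else 0 := rfl

theorem mem_kerZ (B : X → Finset V) (q : X → V → ℝ × ℝ) (Z : Finset V) (p : V → ℝ × ℝ) :
    p ∈ kerZ B q Z ↔ (∀ v, v ∉ Z → p v = 0) ∧
      ∀ x, ∃ (s : ℝ) (a : ℝ × ℝ), ∀ v ∈ B x, p v = s • q x v + a := by
  unfold kerZ
  rw [mem_kerR]
  simp

theorem kerZ_mono (B : X → Finset V) (q : X → V → ℝ × ℝ) {Y Z : Finset V} (h : Y ⊆ Z)
    {p : V → ℝ × ℝ} (hp : p ∈ kerZ B q Y) : p ∈ kerZ B q Z := by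
  rw [mem_kerZ] at hp ⊢
  exact ⟨fun v hv => hp.1 v fun h' => hv (h h'), hp.2⟩

theorem rs_mem {B : X → Finset V} {q : X → V → ℝ × ℝ} {Z W : Finset V} (hWZ : W ⊆ Z)
    (hW : ClosedIn B Z W) {p : V → ℝ × ℝ} (hp : p ∈ kerZ B q Z) : rs W p ∈ kerZ B q W := by
  rw [mem_kerZ] at hp ⊢
  refine ⟨fun v hv => by rw [rs_apply, if_neg hv], fun x => ?_⟩
  by_cases hx : ∃ v ∈ B x, v ∈ W
  · obtain ⟨s, a, h⟩ := hp.2 x
    refine ⟨s, a, fun v hv => ?_⟩
    rw [← h v hv, rs_apply]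
    by_cases hvZ : v ∈ Z
    · rw [if_pos (hW x hx v hv hvZ)]
    · rw [if_neg (fun h' => hvZ (hWZ h')), hp.1 v hvZ]
  · refine ⟨0, 0, fun v hv => ?_⟩
    rw [rs_apply, if_neg (fun h' => hx ⟨v, hv, h'⟩)]
    simp

theorem finrank_kerZ_le (B : X → Finset V) (q : X → V → ℝ × ℝ) (Y : Finset V) :
    finrank ℝ (kerZ B q Y) ≤ 2 * Y.card := by
  let f : kerZ B q Y →ₗ[ℝ] (Y → ℝ × ℝ) :=
    { toFun := fun p v => p.1 v.1
      map_add' := fun _ _ => rfl
      map_smul' := fun _ _ => rfl }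
  have hinj : Function.Injective f := by
    rw [← LinearMap.ker_eq_bot, LinearMap.ker_eq_bot']
    rintro ⟨p, hp⟩ h
    refine Subtype.ext ?_
    show p = 0
    funext v
    by_cases hv : v ∈ Y
    · exact congrFun h ⟨v, hv⟩
    · exact ((mem_kerZ B q Y p).1 hp).1 v hv
  have h := LinearMap.finrank_le_finrank_of_injective hinj
  have h1 : finrank ℝ (Y → ℝ × ℝ) = Y.card * 2 := by
    rw [Module.finrank_pi_fintype]
    simp
  rw [h1] at h
  omega

theorem finrank_split {B : X → Finset V} {q : X → V → ℝ × ℝ} {Z Y W : Finset V} (hYZ : Y ⊆ Z)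
    (hWY : W ⊆ Y) (hW : ClosedIn B Z W) (hW' : ClosedIn B Z (Y \ W)) :
    finrank ℝ (kerZ B q Y) ≤ finrank ℝ (kerZ B q W) + finrank ℝ (kerZ B q (Y \ W)) := by
  have h1 : ∀ p : kerZ B q Y, rs W p.1 ∈ kerZ B q W := fun p =>
    rs_mem (hWY.trans hYZ) hW (kerZ_mono B q hYZ p.2)
  have h2 : ∀ p : kerZ B q Y, rs (Y \ W) p.1 ∈ kerZ B q (Y \ W) := fun p =>
    rs_mem (Finset.sdiff_subset.trans hYZ) hW' (kerZ_mono B q hYZ p.2)
  let f : kerZ B q Y →ₗ[ℝ] (kerZ B q W × kerZ B q (Y \ W)) :=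
    LinearMap.prod (LinearMap.codRestrict _ ((rs W).comp (kerZ B q Y).subtype) h1)
      (LinearMap.codRestrict _ ((rs (Y \ W)).comp (kerZ B q Y).subtype) h2)
  have hinj : Function.Injective f := by
    rw [← LinearMap.ker_eq_bot, LinearMap.ker_eq_bot']
    rintro ⟨p, hp⟩ h
    refine Subtype.ext ?_
    show p = 0
    have h3 : rs W p = 0 := congrArg (fun z => (z.1 : V → ℝ × ℝ)) h
    have h4 : rs (Y \ W) p = 0 := congrArg (fun z => (z.2 : V → ℝ × ℝ)) h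
    funext v
    by_cases hv : v ∈ Y
    · by_cases hvW : v ∈ W
      · have := congrFun h3 v
        rw [rs_apply, if_pos hvW] at this
        exact this
      · have := congrFun h4 v
        rw [rs_apply, if_pos (Finset.mem_sdiff.2 ⟨hv, hvW⟩)] at this
        exact this
    · exact ((mem_kerZ B q Y p).1 hp).1 v hv
  have h := LinearMap.finrank_le_finrank_of_injective hinj
  rwa [Module.finrank_prod] at h

theorem mem_KZ (B : X → Finset V) (Z : Finset V) (x : X) :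
    x ∈ KZ B Z ↔ ∃ v ∈ B x, v ∈ Z := by
  unfold KZ
  rw [Finset.mem_filter]
  exact ⟨fun h => h.2, fun h => ⟨mem_univ _, h⟩⟩

theorem closed_sdiff {B : X → Finset V} {Z Y W : Finset V} (hY : ClosedIn B Z Y)
    (hYZ : Y ⊆ Z) (hW : ClosedIn B Z W) : ClosedIn B Z (Y \ W) := by
  rintro x ⟨u, hu, huY⟩ v hv hvZ
  rw [Finset.mem_sdiff] at huY ⊢
  refine ⟨hY x ⟨u, hu, huY.1⟩ v hv hvZ, fun hvW => huY.2 ?_⟩
  exact hW x ⟨v, hv, hvW⟩ u hu (hYZ huY.1)

theorem Rk_split {B : X → Finset V} {Z Y W : Finset V} (hYZ : Y ⊆ Z)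
    (hWY : W ⊆ Y) (hW : ClosedIn B Z W) :
    Rk B (KZ B Y) = Rk B (KZ B W) + Rk B (KZ B (Y \ W)) := by
  unfold Rk
  have hd : Disjoint (KZ B W) (KZ B (Y \ W)) := by
    rw [Finset.disjoint_left]
    intro x h1 h2
    rw [mem_KZ] at h1 h2
    obtain ⟨v, hv, hvY⟩ := h2
    rw [Finset.mem_sdiff] at hvY
    exact hvY.2 (hW x h1 v hv (hYZ hvY.1))
  have hu : KZ B Y = KZ B W ∪ KZ B (Y \ W) := by
    ext x
    rw [Finset.mem_union, mem_KZ, mem_KZ, mem_KZ]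
    constructor
    · rintro ⟨v, hv, hvY⟩
      by_cases hvW : v ∈ W
      · exact Or.inl ⟨v, hv, hvW⟩
      · exact Or.inr ⟨v, hv, Finset.mem_sdiff.2 ⟨hvY, hvW⟩⟩
    · rintro (⟨v, hv, h⟩ | ⟨v, hv, h⟩)
      · exact ⟨v, hv, hWY h⟩
      · exact ⟨v, hv, (Finset.mem_sdiff.1 h).1⟩
  rw [hu, Finset.sum_union hd]

theorem Rk_compl (B : X → Finset V) (Z : Finset V) :
    Rk B univ = Rk B (KZ B Z) + Rk B (KQ B Zᶜ) := by
  unfold Rk
  have hd : Disjoint (KZ B Z) (KQ B Zᶜ) := by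
    rw [Finset.disjoint_left]
    intro x h1 h2
    rw [mem_KZ] at h1
    unfold KQ at h2
    rw [Finset.mem_filter] at h2
    obtain ⟨v, hv, hvZ⟩ := h1
    exact Finset.mem_compl.1 (h2.2 hv) hvZ
  have hu : (univ : Finset X) = KZ B Z ∪ KQ B Zᶜ := by
    ext x
    rw [Finset.mem_union, mem_KZ]
    unfold KQ
    rw [Finset.mem_filter]
    refine ⟨fun _ => ?_, fun _ => mem_univ _⟩
    by_cases h : ∃ v ∈ B x, v ∈ Z
    · exact Or.inl h
    · refine Or.inr ⟨mem_univ _, fun v hv => Finset.mem_compl.2 fun hvZ => h ⟨v, hv, hvZ⟩⟩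
  rw [hu, Finset.sum_union hd]

/-- a placement that moves one free vertex -/
theorem single_mem {B : X → Finset V} (q : X → V → ℝ × ℝ) {v : V} (hv : ∀ x, v ∉ B x)
    (e : ℝ × ℝ) : (Pi.single v e : V → ℝ × ℝ) ∈ kerq B q := by
  unfold kerq
  rw [mem_kerR]
  refine ⟨fun u hu => absurd (mem_univ _) hu, fun x _ => ⟨0, 0, fun u hu => ?_⟩⟩
  have hne : u ≠ v := fun h => hv x (h ▸ hu)
  rw [Pi.single_eq_of_ne hne]
  simp

/-- the zero set of the placements vanishing on `Q` -/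
theorem kerQ_dim {B : X → Finset V} {q : X → V → ℝ × ℝ} {Q Z : Finset V} (hQne : Q.Nonempty)
    (hcol : ∀ p ∈ kerq B q, ∀ u ∈ Q, ∀ v ∈ Q, p u = p v)
    (hZ : ∀ p ∈ kerq B q, (∀ v ∈ Q, p v = 0) → p ∈ kerZ B q Z) :
    finrank ℝ (kerq B q) ≤ finrank ℝ (kerZ B q Z) + 2 := by
  obtain ⟨u₀, hu₀⟩ := hQne
  let ev : (V → ℝ × ℝ) →ₗ[ℝ] ℝ × ℝ := LinearMap.proj u₀
  have h1 := finrank_map_add ev (kerq B q)
  have h2 : finrank ℝ ((kerq B q).map ev) ≤ 2 := by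
    have := Submodule.finrank_le ((kerq B q).map ev)
    simpa using this
  have h3 : (kerq B q ⊓ LinearMap.ker ev : Submodule ℝ (V → ℝ × ℝ)) ≤ kerZ B q Z := by
    rintro p ⟨hp, hp0⟩
    refine hZ p hp fun v hv => ?_
    rw [hcol p hp v hv u₀ hu₀]
    exact hp0
  have h4 := Submodule.finrank_mono h3
  omega

theorem ysplit : YsplitStatement := by
  intro V X _ _ G S B n₀ L b q hn₀ hS hdim Q hQ hQ2 hcol
  have hQne : Q.Nonempty := Finset.card_pos.1 (by omega)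
  -- the complement of the common zero set
  set Z : Finset V := univ.filter (fun v => ∃ p ∈ kerq B q, (∀ u ∈ Q, p u = 0) ∧ p v ≠ 0)
    with hZdef
  have hmemZ : ∀ v, v ∈ Z ↔ ∃ p ∈ kerq B q, (∀ u ∈ Q, p u = 0) ∧ p v ≠ 0 := by
    intro v
    rw [hZdef, Finset.mem_filter]
    exact ⟨fun h => h.2, fun h => ⟨mem_univ _, h⟩⟩
  have hkq : ∀ p, p ∈ kerq B q ↔ ∀ x, ∃ (s : ℝ) (a : ℝ × ℝ), ∀ v ∈ B x, p v = s • q x v + a := by
    intro p
    unfold kerq
    rw [mem_kerR]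
    simp
  have hZQ : ∀ p ∈ kerq B q, (∀ v ∈ Q, p v = 0) → p ∈ kerZ B q Z := by
    intro p hp hpQ
    rw [mem_kerZ]
    refine ⟨fun v hv => ?_, (hkq p).1 hp⟩
    by_contra h0
    exact hv ((hmemZ v).2 ⟨p, hp, hpQ, h0⟩)
  have hQZ : Q ⊆ Zᶜ := by
    intro v hv
    rw [Finset.mem_compl, hmemZ]
    rintro ⟨p, -, hp, h0⟩
    exact h0 (hp v hv)
  have hd1 := kerQ_dim hQne hcol hZQ
  -- `S ⊆ Z`
  have hSZ : S ⊆ Z := by
    intro v hv
    have hfree : ∀ x, v ∉ B x := fun x hx => Finset.disjoint_left.1 (hS.avoid x) hx hv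
    have h1 := single_mem q hfree ((1 : ℝ), (0 : ℝ))
    have hvQ : v ∉ Q := by
      intro hvQ
      obtain ⟨u, huQ, huv⟩ := Finset.exists_mem_ne (show 1 < Q.card by omega) v
      have h2 := hcol _ h1 v hvQ u huQ
      rw [Pi.single_eq_same, Pi.single_eq_of_ne huv] at h2
      have h3 := congrArg Prod.fst h2
      simp at h3
    rw [hmemZ]
    refine ⟨_, h1, fun u hu => ?_, ?_⟩
    · exact Pi.single_eq_of_ne (by rintro rfl; exact hvQ hu) _
    · rw [Pi.single_eq_same]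
      intro h2
      have h3 := congrArg Prod.fst h2
      simp at h3
  have hZ12 : 12 * n₀ ≤ Z.card := by
    rw [← hS.cardS]
    exact Finset.card_le_card hSZ
  have hcomp : Z.card + Zᶜ.card = Fintype.card V := Finset.card_add_card_compl Z
  have hbadZ : Z.card + 6 * n₀ * Z.card ≤
      3 * n₀ * (finrank ℝ (kerZ B q Z) + Rk B (KZ B Z)) := by
    have h1 := hS.large Zᶜ (by
      have := Finset.card_le_card hQZ
      omega)
    rw [compl_compl] at h1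
    have h2 := Rk_compl B Z
    rw [h2] at hdim
    have h3 : 2 * Fintype.card V ≤ finrank ℝ (kerZ B q Z) + 2 + Rk B (KZ B Z) +
        Rk B (KQ B Zᶜ) := by omega
    have h4 := Nat.mul_le_mul_left (6 * n₀) h3
    rw [← hcomp] at h4
    zify at h1 h4 hZ12 ⊢
    nlinarith
  -- a minimal closed set
  have hex : ∃ Y : Finset V, (Y ⊆ Z ∧ Y.Nonempty ∧ ClosedIn B Z Y ∧
      Y.card + 6 * n₀ * Y.card ≤ 3 * n₀ * (finrank ℝ (kerZ B q Y) + Rk B (KZ B Y))) ∧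
      ∀ W : Finset V, W ⊂ Y → ¬ (W ⊆ Z ∧ W.Nonempty ∧ ClosedIn B Z W ∧
      W.card + 6 * n₀ * W.card ≤ 3 * n₀ * (finrank ℝ (kerZ B q W) + Rk B (KZ B W))) := by
    have hwf : WellFounded (fun a b : Finset V => a ⊂ b) := wellFounded_lt
    let P : Set (Finset V) := {Y | Y ⊆ Z ∧ Y.Nonempty ∧ ClosedIn B Z Y ∧
      Y.card + 6 * n₀ * Y.card ≤ 3 * n₀ * (finrank ℝ (kerZ B q Y) + Rk B (KZ B Y))}
    have hP : P.Nonempty := ⟨Z, Finset.Subset.refl _, Finset.card_pos.1 (by omega),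
      fun x _ v _ hv => hv, hbadZ⟩
    refine ⟨hwf.min P hP, hwf.min_mem P hP, fun W hW hWP => ?_⟩
    exact hwf.not_lt_min P hWP hW
  obtain ⟨Y, ⟨hYZ, hYne, hYcl, hYbad⟩, hmin⟩ := hex
  -- there are no proper closed subsets
  have hnocl : ∀ W : Finset V, W ⊆ Y → W.Nonempty → ClosedIn B Z W → W = Y := by
    intro W hWY hWne hWcl
    by_contra hne
    have hss : W ⊂ Y := Finset.ssubset_iff_subset_ne.2 ⟨hWY, hne⟩
    have hDne : (Y \ W).Nonempty := by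
      rw [Finset.sdiff_nonempty]
      exact fun h => hne (Finset.Subset.antisymm hWY h)
    have hDcl := closed_sdiff hYcl hYZ hWcl
    have hDss : Y \ W ⊂ Y := by
      refine Finset.ssubset_iff_subset_ne.2 ⟨Finset.sdiff_subset, fun h => ?_⟩
      obtain ⟨v, hv⟩ := hWne
      have h1 : v ∈ Y \ W := by rw [h]; exact hWY hv
      exact (Finset.mem_sdiff.1 h1).2 hv
    have h1 := hmin W hss
    have h2 := hmin (Y \ W) hDss
    have h3 : ¬ (W.card + 6 * n₀ * W.card ≤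
        3 * n₀ * (finrank ℝ (kerZ B q W) + Rk B (KZ B W))) := fun h =>
      h1 ⟨hWY.trans hYZ, hWne, hWcl, h⟩
    have h4 : ¬ ((Y \ W).card + 6 * n₀ * (Y \ W).card ≤
        3 * n₀ * (finrank ℝ (kerZ B q (Y \ W)) + Rk B (KZ B (Y \ W)))) := fun h =>
      h2 ⟨Finset.sdiff_subset.trans hYZ, hDne, hDcl, h⟩
    have h5 := finrank_split (q := q) hYZ hWY hWcl hDcl
    have h6 := Rk_split (B := B) hYZ hWY hWcl
    have h7 : (Y \ W).card + W.card = Y.card := Finset.card_sdiff_add_card_eq_card hWY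
    rw [not_le] at h3 h4
    have h8 : finrank ℝ (kerZ B q Y) + Rk B (KZ B Y) ≤
        (finrank ℝ (kerZ B q W) + Rk B (KZ B W)) +
        (finrank ℝ (kerZ B q (Y \ W)) + Rk B (KZ B (Y \ W))) := by omega
    have h9 := Nat.mul_le_mul_left (3 * n₀) h8
    rw [← h7] at hYbad
    rw [mul_add] at h9
    have h10 : 6 * n₀ * ((Y \ W).card + W.card) =
      6 * n₀ * (Y \ W).card + 6 * n₀ * W.card := by ring
    rw [h10] at hYbad
    linarith
  -- bodies meet `Y`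
  have hKne : (KZ B Y).Nonempty := by
    by_contra h
    rw [Finset.not_nonempty_iff_eq_empty] at h
    have h1 : Rk B (KZ B Y) = 0 := by rw [h]; rfl
    have h2 := finrank_kerZ_le B q Y
    have h3 : 0 < Y.card := Finset.card_pos.2 hYne
    rw [h1, add_zero] at hYbad
    have h4 := Nat.mul_le_mul_left (3 * n₀) h2
    have h5 : 3 * n₀ * (2 * Y.card) = 6 * n₀ * Y.card := by ring
    rw [h5] at h4
    omega
  have hcov : ∀ v ∈ Y, ∃ x, v ∈ B x := by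
    intro v hv
    by_contra h
    push Not at h
    have hcl : ClosedIn B Z {v} := by
      rintro x ⟨u, hu, huv⟩ w _ _
      rw [Finset.mem_singleton] at huv
      exact absurd (huv ▸ hu) (h x)
    have h1 := hnocl {v} (Finset.singleton_subset_iff.2 hv) (Finset.singleton_nonempty v) hcl
    obtain ⟨x, hx⟩ := hKne
    rw [mem_KZ, ← h1] at hx
    obtain ⟨u, hu, huv⟩ := hx
    rw [Finset.mem_singleton] at huv
    exact h x (huv ▸ hu)
  have hconn : Conn (adjB B) (KZ B Y) := by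
    intro K hK hKn hKne'
    by_contra hcon
    push Not at hcon
    let W : Finset V := Y.filter (fun v => ∃ x ∈ K, v ∈ B x)
    have hWmem : ∀ v, v ∈ W ↔ v ∈ Y ∧ ∃ x ∈ K, v ∈ B x := fun v => Finset.mem_filter
    have hWcl : ClosedIn B Z W := by
      rintro x ⟨u, hu, huW⟩ v hv hvZ
      obtain ⟨huY, y, hyK, huy⟩ := (hWmem u).1 huW
      have hxK : x ∈ K := by
        by_contra hxK
        exact hcon y hyK x ((mem_KZ B Y x).2 ⟨u, hu, huY⟩) hxK ⟨u, huy, hu⟩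
      exact (hWmem v).2 ⟨hYcl x ⟨u, hu, huY⟩ v hv hvZ, x, hxK, hv⟩
    have hWne : W.Nonempty := by
      obtain ⟨y, hy⟩ := hKn
      obtain ⟨u, hu, huY⟩ := (mem_KZ B Y y).1 (hK hy)
      exact ⟨u, (hWmem u).2 ⟨huY, y, hy, hu⟩⟩
    have h1 := hnocl W (Finset.filter_subset _ _) hWne hWcl
    obtain ⟨z, hz, hzK⟩ : ∃ z ∈ KZ B Y, z ∉ K := by
      by_contra h
      push Not at h
      exact hKne' (Finset.Subset.antisymm hK h)
    obtain ⟨u, hu, huY⟩ := (mem_KZ B Y z).1 hz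
    rw [← h1] at huY
    obtain ⟨-, y, hyK, huy⟩ := (hWmem u).1 huY
    exact hcon y hyK z hz hzK ⟨u, huy, hu⟩
  -- a generic element
  obtain ⟨p, hp, hpne⟩ : ∃ p ∈ kerZ B q Y, ∀ v ∈ Y,
      ((LinearMap.fst ℝ ℝ ℝ).comp (LinearMap.proj v : (V → ℝ × ℝ) →ₗ[ℝ] ℝ × ℝ)) p *
        ((LinearMap.fst ℝ ℝ ℝ).comp (LinearMap.proj v : (V → ℝ × ℝ) →ₗ[ℝ] ℝ × ℝ)) p +
      ((LinearMap.snd ℝ ℝ ℝ).comp (LinearMap.proj v : (V → ℝ × ℝ) →ₗ[ℝ] ℝ × ℝ)) p *
        ((LinearMap.snd ℝ ℝ ℝ).comp (LinearMap.proj v : (V → ℝ × ℝ) →ₗ[ℝ] ℝ × ℝ)) p ≠ 0 := by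
    refine exists_common (kerZ B q Y) Y (fun v p =>
      ((LinearMap.fst ℝ ℝ ℝ).comp (LinearMap.proj v : (V → ℝ × ℝ) →ₗ[ℝ] ℝ × ℝ)) p *
        ((LinearMap.fst ℝ ℝ ℝ).comp (LinearMap.proj v : (V → ℝ × ℝ) →ₗ[ℝ] ℝ × ℝ)) p +
      ((LinearMap.snd ℝ ℝ ℝ).comp (LinearMap.proj v : (V → ℝ × ℝ) →ₗ[ℝ] ℝ × ℝ)) p *
        ((LinearMap.snd ℝ ℝ ℝ).comp (LinearMap.proj v : (V → ℝ × ℝ) →ₗ[ℝ] ℝ × ℝ)) p) ?_ ?_
    · intro v _
      exact ((PolyLine.linear _).mul (PolyLine.linear _)).add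
        ((PolyLine.linear _).mul (PolyLine.linear _))
    · intro v hv
      obtain ⟨p, hp, hpQ, hpv⟩ := (hmemZ v).1 (hYZ hv)
      refine ⟨rs Y p, rs_mem hYZ hYcl (hZQ p hp hpQ), fun h0 => hpv ?_⟩
      have h1 : rs Y p v = p v := by rw [rs_apply, if_pos hv]
      have h2 : (p v).1 * (p v).1 + (p v).2 * (p v).2 = 0 := by
        rw [← h1]; exact h0
      have h3 : (p v).1 = 0 := by nlinarith [mul_self_nonneg (p v).1, mul_self_nonneg (p v).2]
      have h4 : (p v).2 = 0 := by nlinarith [mul_self_nonneg (p v).1, mul_self_nonneg (p v).2]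
      exact Prod.ext h3 h4
  refine ⟨Y, p, hconn, hKne, hcov, hp, fun v hv h0 => hpne v hv ?_, hYbad⟩
  show (p v).1 * (p v).1 + (p v).2 * (p v).2 = 0
  rw [h0]
  simp

end Pool.Agent.Lib.MP_04668c_co.E.H58
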